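import Pool.Agent.Lib.MP_f42431_co.Unsafe

set_option autoImplicit false

namespace Pool.Agent.Lib.MP_f42431_co

open Finset

variable {m n : ℕ}

/-- for a gap that is not a cut, there is an inversion across it whose left entry is the maximum
of the entries to the left -/
theorem exists_cross (σ : Equiv.Perm (Fin n)) (c : Fin n) (hc : ¬ ∀ i : Fin n, i ≤ c → σ i ≤ c) :
    ∃ i j : Fin n, i ≤ c ∧ (∀ i' : Fin n, i' ≤ c → σ i' ≤ σ i) ∧ c < j ∧ σ j < σ i ∧
      ∀ j' : Fin n, c < j' → σ j' < σ i → j ≤ j' := by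
  classical
  obtain ⟨i, hi, hmax⟩ := Finset.exists_max_image (univ.filter (fun i : Fin n => i ≤ c)) (fun i => σ i)
    ⟨c, by simp⟩
  simp only [mem_filter, mem_univ, true_and] at hi hmax
  push Not at hc
  obtain ⟨i0, hi0, hci0⟩ := hc
  have hci : c < σ i := lt_of_lt_of_le hci0 (hmax i0 hi0)
  have hex : ∃ j : Fin n, c < j ∧ σ j < σ i := by
    by_contra hno
    push Not at hno
    have h1 : ∀ x ∈ (univ.filter (fun j : Fin n => c < j)),
        σ x ∈ (univ.filter (fun j : Fin n => c < j)) := by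
      intro x hx
      simp only [mem_filter, mem_univ, true_and] at hx ⊢
      exact lt_of_lt_of_le hci (hno x hx)
    have h2 := Equiv.Perm.perm_symm_on_of_perm_on_finset h1
      (y := σ i) (by simp only [mem_filter, mem_univ, true_and]; exact hci)
    simp only [mem_filter, mem_univ, true_and, Equiv.symm_apply_apply] at h2
    exact absurd h2 (not_lt.2 hi)
  obtain ⟨j, hj, hmin⟩ := Finset.exists_min_image
    (univ.filter (fun j : Fin n => c < j ∧ σ j < σ i)) (fun j => j)
    (by obtain ⟨j, hj⟩ := hex; exact ⟨j, by simpa using hj⟩)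
  simp only [mem_filter, mem_univ, true_and] at hj hmin
  exact ⟨i, j, hi, hmax, hj.1, hj.2, fun j' h1 h2 => hmin j' ⟨h1, h2⟩⟩

/-- a permutation of `n` points has at most `n - comps` fewer than... : `n ≤ comps + inv` -/
theorem le_comps_add_inv (σ : Equiv.Perm (Fin n)) : n ≤ comps σ + inv σ := by
  classical
  have h1 : comps σ + ((univ : Finset (Fin n)).filter
      (fun c => ¬ ∀ i : Fin n, i ≤ c → σ i ≤ c)).card = n := by
    unfold comps
    rw [Finset.card_filter_add_card_filter_not]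
    simp
  have h2 : ((univ : Finset (Fin n)).filter
      (fun c => ¬ ∀ i : Fin n, i ≤ c → σ i ≤ c)).card ≤ inv σ := by
    unfold inv
    have hch : ∀ c : Fin n, ∃ i j : Fin n, (¬ ∀ i : Fin n, i ≤ c → σ i ≤ c) → (i ≤ c ∧
        (∀ i' : Fin n, i' ≤ c → σ i' ≤ σ i) ∧ c < j ∧ σ j < σ i ∧
        ∀ j' : Fin n, c < j' → σ j' < σ i → j ≤ j') := by
      intro c
      by_cases h : ∀ i : Fin n, i ≤ c → σ i ≤ c
      · exact ⟨c, c, fun h' => absurd h h'⟩
      · obtain ⟨i, j, hij⟩ := exists_cross σ c h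
        exact ⟨i, j, fun _ => hij⟩
    choose I J hIJ using hch
    have key : ∀ c d : Fin n, (¬ ∀ i : Fin n, i ≤ c → σ i ≤ c) →
        (¬ ∀ i : Fin n, i ≤ d → σ i ≤ d) → c < d → I c = I d → J c ≠ J d := by
      intro c d hc hd hcd hI hJ
      obtain ⟨a1, a2, a3, a4, a5⟩ := hIJ c hc
      obtain ⟨b1, b2, b3, b4, b5⟩ := hIJ d hd
      -- the position after `c`
      have hcn : (c : ℕ) + 1 < n := by have := d.2; rw [Fin.lt_def] at hcd; omega
      set e : Fin n := ⟨(c : ℕ) + 1, hcn⟩ with he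
      have hce : c < e := by rw [Fin.lt_def]; simp [he]
      have hed : e ≤ d := by rw [Fin.le_def]; rw [Fin.lt_def] at hcd; simp [he]; omega
      have h3 : σ e < σ (I c) := by
        have h4 := b2 e hed
        rw [← hI] at h4
        rcases lt_or_eq_of_le h4 with h5 | h5
        · exact h5
        · have := σ.injective h5
          rw [this] at hce
          exact absurd a1 (not_le.2 hce)
      have h6 := a5 e hce h3
      rw [hJ] at h6
      exact absurd (lt_of_lt_of_le b3 h6) (not_lt.2 hed)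
    refine Finset.card_le_card_of_injOn (fun c => (I c, J c)) ?_ ?_
    · intro c hc
      simp only [coe_filter, mem_univ, true_and, Set.mem_ofPred_eq] at hc
      obtain ⟨a1, a2, a3, a4, a5⟩ := hIJ c hc
      simp only [coe_filter, mem_univ, true_and, Set.mem_ofPred_eq]
      exact ⟨lt_of_le_of_lt a1 a3, a4⟩
    · intro c hc d hd hcd
      simp only [coe_filter, mem_univ, true_and, Set.mem_ofPred_eq] at hc hd
      simp only [Prod.mk.injEq] at hcd
      rcases lt_trichotomy c d with h | h | h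
      · exact absurd hcd.2 (key c d hc hd h hcd.1)
      · exact h
      · exact absurd hcd.2.symm (key d c hd hc h hcd.1.symm)
  omega

/-- inserting a fixed point at the first safe cut -/
theorem exists_inj (p : Equiv.Perm (Fin m)) (n k c : ℕ) (hc : tau p ≤ c) :
    ∃ F : {σ : Equiv.Perm (Fin n) // ¬ Contains p σ ∧ inv σ = k ∧ c ≤ comps σ} →
      {σ : Equiv.Perm (Fin (n + 1)) // ¬ Contains p σ ∧ inv σ = k ∧ c + 1 ≤ comps σ},
      Function.Injective F := by
  classical
  have hex : ∀ σ : {σ : Equiv.Perm (Fin n) // ¬ Contains p σ ∧ inv σ = k ∧ c ≤ comps σ},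
      ∃ d, d ≤ n ∧ Cut σ.1 d ∧ ¬ Con p σ.1 d :=
    fun σ => exists_safe σ.2.1 (le_trans hc σ.2.2.2)
  have hlt : ∀ σ, Nat.find (hex σ) < n + 1 := fun σ => Nat.lt_succ_of_le (Nat.find_spec (hex σ)).1
  let D : {σ : Equiv.Perm (Fin n) // ¬ Contains p σ ∧ inv σ = k ∧ c ≤ comps σ} → Fin (n + 1) :=
    fun σ => ⟨Nat.find (hex σ), hlt σ⟩
  have hcut : ∀ σ, Cut σ.1 (D σ) := fun σ => (Nat.find_spec (hex σ)).2.1
  have hsafe : ∀ σ, ¬ Con p σ.1 (D σ) := fun σ => (Nat.find_spec (hex σ)).2.2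
  have hmin : ∀ σ d, d < (D σ : ℕ) → ¬ (d ≤ n ∧ Cut σ.1 d ∧ ¬ Con p σ.1 d) :=
    fun σ d h => Nat.find_min (hex σ) h
  refine ⟨fun σ => ⟨ins σ.1 (D σ), ?_, ?_, ?_⟩, ?_⟩
  · exact fun h => hsafe σ (con_of_ins_contains (hcut σ) h)
  · rw [inv_ins (hcut σ)]; exact σ.2.2.1
  · have := comps_ins (hcut σ)
    have := σ.2.2.2
    omega
  · have key : ∀ σ ρ, D σ < D ρ → ins σ.1 (D σ) ≠ ins ρ.1 (D ρ) := by
      intro σ ρ hlt' h
      obtain ⟨h1, h2⟩ := key_inj (p := p) hlt' (hcut σ) h
      refine hmin ρ (D σ) hlt' ⟨by have := (D σ).2; omega, h1, ?_⟩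
      exact fun h3 => hsafe σ (h2 h3)
    intro σ ρ h
    simp only [Subtype.mk.injEq] at h
    rcases lt_trichotomy (D σ) (D ρ) with h1 | h1 | h1
    · exact absurd h (key σ ρ h1)
    · rw [h1] at h
      exact Subtype.ext (ins_inj h)
    · exact absurd h.symm (key ρ σ h1)

end Pool.Agent.Lib.MP_f42431_co
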