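import Pool.Agent.Lib.MP_f42431_co.Insert

set_option autoImplicit false

namespace Pool.Agent.Lib.MP_f42431_co

open Finset

variable {m n : ℕ}

theorem con_of_ins_contains {p : Equiv.Perm (Fin m)} {σ : Equiv.Perm (Fin n)} {c : Fin (n + 1)}
    (hc : Cut σ c) (h : Contains p (ins σ c)) : Con p σ c :=
  con_ins hc (con_of_contains _ h)

theorem inv_ins {σ : Equiv.Perm (Fin n)} {c : Fin (n + 1)} (hc : Cut σ c) :
    inv (ins σ c) = inv σ := by
  unfold inv
  symm
  refine Finset.card_bij (fun q _ => (c.succAbove q.1, c.succAbove q.2)) ?_ ?_ ?_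
  · intro q hq
    simp only [mem_filter, mem_univ, true_and, ins_succAbove, Fin.succAbove_lt_succAbove_iff]
      at hq ⊢
    exact hq
  · intro q _ r _ h
    simp only [Prod.mk.injEq] at h
    exact Prod.ext (Fin.succAbove_right_injective h.1) (Fin.succAbove_right_injective h.2)
  · rintro ⟨a, b⟩ hq
    simp only [mem_filter, mem_univ, true_and] at hq
    obtain ⟨h1, h2⟩ := hq
    rcases Fin.eq_self_or_eq_succAbove c a with ha | ⟨x, hx⟩
    · exfalso
      subst ha
      rw [ins_self] at h2
      rcases Fin.eq_self_or_eq_succAbove a b with hb | ⟨y, hy⟩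
      · rw [hb] at h1; exact lt_irrefl _ h1
      · rw [hy] at h1 h2
        rw [ins_succAbove] at h2
        have hya : (a : ℕ) ≤ y := by
          by_contra hcc
          push Not at hcc
          rw [Fin.lt_def, sa_lt hcc] at h1
          omega
        have := hc.ge hya
        rw [Fin.lt_def, sa_ge this] at h2
        omega
    · rcases Fin.eq_self_or_eq_succAbove c b with hb | ⟨y, hy⟩
      · exfalso
        rw [hx, hb] at h1
        rw [hx, hb, ins_self, ins_succAbove] at h2
        have hxc : (x : ℕ) < c := by
          by_contra hcc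
          push Not at hcc
          rw [Fin.lt_def, sa_ge hcc] at h1
          omega
        have := hc x hxc
        rw [Fin.lt_def, sa_lt this] at h2
        omega
      · refine ⟨(x, y), ?_, by rw [hx, hy]⟩
        rw [hx, hy] at h1 h2
        rw [ins_succAbove, ins_succAbove] at h2
        rw [Fin.succAbove_lt_succAbove_iff] at h1 h2
        simp only [mem_filter, mem_univ, true_and]
        exact ⟨h1, h2⟩

theorem comps_ins {σ : Equiv.Perm (Fin n)} {c : Fin (n + 1)} (hc : Cut σ c) :
    comps σ + 1 ≤ comps (ins σ c) := by
  unfold comps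
  have hnot : c ∉ ((univ : Finset (Fin n)).filter (fun c => ∀ i : Fin n, i ≤ c → σ i ≤ c)).map
      (Fin.succAboveEmb c) := by
    simp only [mem_map, not_exists, not_and]
    intro x _ h
    exact Fin.succAbove_ne c x h
  rw [← Finset.card_map (Fin.succAboveEmb c), ← Finset.card_insert_of_notMem hnot]
  apply Finset.card_le_card
  intro e he
  rw [mem_insert] at he
  simp only [mem_filter, mem_univ, true_and]
  rcases he with he | he
  · subst he
    intro i hi
    rcases Fin.eq_self_or_eq_succAbove e i with h | ⟨x, hx⟩
    · rw [h, ins_self]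
    · have hxe : (x : ℕ) < e := by
        by_contra hcc
        push Not at hcc
        rw [hx, Fin.le_def, sa_ge hcc] at hi
        omega
      rw [hx, ins_succAbove, Fin.le_def, sa_lt (hc x hxe)]
      exact (hc x hxe).le
  · simp only [mem_map, mem_filter, mem_univ, true_and] at he
    obtain ⟨d, hd, rfl⟩ := he
    intro i hi
    change i ≤ c.succAbove d at hi
    change _ ≤ c.succAbove d
    rcases Fin.eq_self_or_eq_succAbove c i with h | ⟨x, hx⟩
    · rw [h, ins_self]; rw [h] at hi; exact hi
    · rw [hx] at hi ⊢
      rw [ins_succAbove, Fin.succAbove_le_succAbove_iff]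
      rw [Fin.succAbove_le_succAbove_iff] at hi
      exact hd x hi

/-- the number of cuts of `σ` in `0, …, n` is one more than the number of components -/
theorem card_cuts (σ : Equiv.Perm (Fin n)) :
    ∃ s : Finset ℕ, (∀ c, c ∈ s ↔ c ≤ n ∧ Cut σ c) ∧ s.card = comps σ + 1 := by
  classical
  refine ⟨(range (n + 1)).filter (fun c => Cut σ c), ?_, ?_⟩
  · intro c
    simp only [mem_filter, mem_range]
    exact ⟨fun h => ⟨by omega, h.2⟩, fun h => ⟨by omega, h.2⟩⟩
  · have h : (range (n + 1)).filter (fun c => Cut σ c) =
        insert 0 (((univ : Finset (Fin n)).filter (fun c => ∀ i : Fin n, i ≤ c → σ i ≤ c)).map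
          ⟨fun c : Fin n => (c : ℕ) + 1, fun a b h => Fin.ext (by simpa using h)⟩) := by
      ext c
      simp only [mem_filter, mem_range, mem_insert, mem_map, mem_univ, true_and,
        Function.Embedding.coeFn_mk]
      constructor
      · rintro ⟨h1, h2⟩
        rcases Nat.eq_zero_or_pos c with h0 | h0
        · exact Or.inl h0
        · right
          refine ⟨⟨c - 1, by omega⟩, ?_, ?_⟩
          · intro i hi
            have := h2 i (by rw [Fin.le_def] at hi; simp at hi; omega)
            rw [Fin.le_def]; simp; omega
          · simp; omega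
      · rintro (h | ⟨d, hd, rfl⟩)
        · subst h
          exact ⟨by omega, cut_zero σ⟩
        · refine ⟨by omega, ?_⟩
          intro i hi
          have := hd i (by rw [Fin.le_def]; omega)
          rw [Fin.le_def] at this
          omega
    rw [h, Finset.card_insert_of_notMem, Finset.card_map]
    · rfl
    · simp

end Pool.Agent.Lib.MP_f42431_co
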