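import Mathlib

/-!
MP_f42431_co: definitions.
-/

set_option autoImplicit false

namespace Pool.Agent.Lib.MP_f42431_co

open Finset

/-- `σ` contains the classical pattern `p`. -/
def Contains {m n : ℕ} (p : Equiv.Perm (Fin m)) (σ : Equiv.Perm (Fin n)) : Prop :=
  ∃ f : Fin m ↪o Fin n, ∀ i j : Fin m, p i < p j ↔ σ (f i) < σ (f j)

/-- the number of inversions of `σ` -/
def inv {n : ℕ} (σ : Equiv.Perm (Fin n)) : ℕ :=
  ((univ : Finset (Fin n × Fin n)).filter (fun q => q.1 < q.2 ∧ σ q.2 < σ q.1)).card

/-- the number of sum-components of `σ`: the number of initial segments `{0, …, c}`,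
`c < n`, that `σ` maps to themselves -/
def comps {n : ℕ} (σ : Equiv.Perm (Fin n)) : ℕ :=
  ((univ : Finset (Fin n)).filter (fun c => ∀ i : Fin n, i ≤ c → σ i ≤ c)).card

/-- the number of sum-components of size one of `p`, that is, of entries that take part in no
inversion -/
def tau {m : ℕ} (p : Equiv.Perm (Fin m)) : ℕ :=
  ((univ : Finset (Fin m)).filter (fun i => ∀ j : Fin m, i < j ↔ p i < p j)).card

end Pool.Agent.Lib.MP_f42431_co
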