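import Pool.Agent.Lib.MP_f42431_co.Defs

set_option autoImplicit false

namespace Pool.Agent.Lib.MP_f42431_co

open Finset

variable {m n : ℕ}

/-- `c` is a cut of `σ` -/
def Cut (σ : Equiv.Perm (Fin n)) (c : ℕ) : Prop := ∀ i : Fin n, (i : ℕ) < c → (σ i : ℕ) < c

theorem Cut.ge {σ : Equiv.Perm (Fin n)} {c : ℕ} (h : Cut σ c) {i : Fin n} (hi : c ≤ i) :
    c ≤ (σ i : ℕ) := by
  by_contra hc
  push Not at hc
  have h1 : ∀ x ∈ (univ.filter (fun i : Fin n => (i : ℕ) < c)),
      σ x ∈ (univ.filter (fun i : Fin n => (i : ℕ) < c)) := by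
    intro x hx
    simp only [mem_filter, mem_univ, true_and] at hx ⊢
    exact h x hx
  have h2 := Equiv.Perm.perm_symm_on_of_perm_on_finset h1
    (y := σ i) (by simp only [mem_filter, mem_univ, true_and]; exact hc)
  simp only [mem_filter, mem_univ, true_and, Equiv.symm_apply_apply] at h2
  omega

theorem cut_zero (σ : Equiv.Perm (Fin n)) : Cut σ 0 := fun i hi => absurd hi (Nat.not_lt_zero _)

theorem cut_n (σ : Equiv.Perm (Fin n)) : Cut σ n := fun i _ => (σ i).2

/-- insert a fixed point at `c` -/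
def ins (σ : Equiv.Perm (Fin n)) (c : Fin (n + 1)) : Equiv.Perm (Fin (n + 1)) :=
  (finSuccEquiv' c).trans ((Equiv.optionCongr σ).trans (finSuccEquiv' c).symm)

@[simp] theorem ins_self (σ : Equiv.Perm (Fin n)) (c : Fin (n + 1)) : ins σ c c = c := by
  simp [ins]

@[simp] theorem ins_succAbove (σ : Equiv.Perm (Fin n)) (c : Fin (n + 1)) (i : Fin n) :
    ins σ c (c.succAbove i) = c.succAbove (σ i) := by
  simp [ins]

theorem ins_inj {σ ρ : Equiv.Perm (Fin n)} {c : Fin (n + 1)} (h : ins σ c = ins ρ c) : σ = ρ := by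
  ext i
  have h1 := congrArg (fun e => e (c.succAbove i)) h
  simp only [ins_succAbove] at h1
  rw [Fin.succAbove_right_injective h1]

theorem sa_lt {c : Fin (n + 1)} {i : Fin n} (h : (i : ℕ) < c) :
    ((c.succAbove i : Fin (n + 1)) : ℕ) = i := by
  rw [Fin.succAbove_of_castSucc_lt _ _ (by rw [Fin.lt_def]; simpa using h)]
  simp

theorem sa_ge {c : Fin (n + 1)} {i : Fin n} (h : (c : ℕ) ≤ i) :
    ((c.succAbove i : Fin (n + 1)) : ℕ) = i + 1 := by
  rw [Fin.succAbove_of_le_castSucc _ _ (by rw [Fin.le_def]; simpa using h)]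
  simp

/-- `p` is contained in `σ` with an unlimited increasing run inserted at the cut `c` -/
def Con (p : Equiv.Perm (Fin m)) (σ : Equiv.Perm (Fin n)) (c : ℕ) : Prop :=
  ∃ g : Fin m → Option (Fin n), ∀ i j : Fin m, i < j →
    (∀ x y, g i = some x → g j = some y → x < y ∧ (p i < p j ↔ σ x < σ y)) ∧
    (∀ x, g i = some x → g j = none → (x : ℕ) < c ∧ p i < p j) ∧
    (∀ y, g i = none → g j = some y → c ≤ (y : ℕ) ∧ p i < p j) ∧
    (g i = none → g j = none → p i < p j)

theorem con_of_contains {p : Equiv.Perm (Fin m)} {σ : Equiv.Perm (Fin n)} (c : ℕ)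
    (h : Contains p σ) : Con p σ c := by
  obtain ⟨f, hf⟩ := h
  refine ⟨fun i => some (f i), fun i j hij => ⟨?_, ?_, ?_, ?_⟩⟩
  · intro x y hx hy
    simp only [Option.some.injEq] at hx hy
    subst hx hy
    exact ⟨f.strictMono hij, hf i j⟩
  · intro x _ h; exact absurd h (by simp)
  · intro x h; exact absurd h (by simp)
  · intro h; exact absurd h (by simp)

/-- the inserted fixed point may be absorbed in the run -/
theorem con_ins {p : Equiv.Perm (Fin m)} {σ : Equiv.Perm (Fin n)} {c : Fin (n + 1)}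
    (hc : Cut σ c) (h : Con p (ins σ c) c) : Con p σ c := by
  obtain ⟨g, hg⟩ := h
  have key : ∀ i, (g i = none ∨ g i = some c) ∨ ∃ x, g i = some (c.succAbove x) := by
    intro i
    rcases hgi : g i with _ | y
    · exact Or.inl (Or.inl rfl)
    · rcases Fin.eq_self_or_eq_succAbove c y with h | ⟨x, h⟩
      · exact Or.inl (Or.inr (by rw [h]))
      · exact Or.inr ⟨x, by rw [h]⟩
  refine ⟨fun i => (g i).bind (finSuccEquiv' c), ?_⟩
  have e1 : ∀ i, ((g i).bind (finSuccEquiv' c) = none) → g i = none ∨ g i = some c := by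
    intro i h
    rcases key i with h1 | ⟨x, h1⟩
    · exact h1
    · rw [h1] at h; simp at h
  have e2 : ∀ i x, ((g i).bind (finSuccEquiv' c) = some x) → g i = some (c.succAbove x) := by
    intro i x h
    rcases key i with (h1 | h1) | ⟨y, h1⟩
    · rw [h1] at h; simp at h
    · rw [h1] at h; simp at h
    · rw [h1] at h; simp at h; rw [h1, h]
  intro i j hij
  obtain ⟨g1, g2, g3, g4⟩ := hg i j hij
  refine ⟨?_, ?_, ?_, ?_⟩
  · intro x y hx hy
    have hx' := e2 i x hx
    have hy' := e2 j y hy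
    obtain ⟨a, b⟩ := g1 _ _ hx' hy'
    rw [ins_succAbove, ins_succAbove, Fin.succAbove_lt_succAbove_iff] at b
    rw [Fin.succAbove_lt_succAbove_iff] at a
    exact ⟨a, b⟩
  · intro x hx hj
    have hx' := e2 i x hx
    rcases e1 j hj with hj' | hj'
    · obtain ⟨a, b⟩ := g2 _ hx' hj'
      refine ⟨?_, b⟩
      by_contra hcc
      push Not at hcc
      rw [sa_ge hcc] at a
      omega
    · obtain ⟨a, b⟩ := g1 _ _ hx' hj'
      have hxc : (x : ℕ) < c := by
        by_contra hcc
        push Not at hcc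
        rw [Fin.lt_def, sa_ge hcc] at a
        omega
      refine ⟨hxc, b.2 ?_⟩
      rw [ins_succAbove, ins_self, Fin.lt_def, sa_lt (hc x hxc)]
      exact hc x hxc
  · intro y hi hy
    have hy' := e2 j y hy
    rcases e1 i hi with hi' | hi'
    · obtain ⟨a, b⟩ := g3 _ hi' hy'
      refine ⟨?_, b⟩
      by_contra hcc
      push Not at hcc
      rw [sa_lt hcc] at a
      omega
    · obtain ⟨a, b⟩ := g1 _ _ hi' hy'
      have hyc : (c : ℕ) ≤ y := by
        by_contra hcc
        push Not at hcc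
        rw [Fin.lt_def, sa_lt hcc] at a
        omega
      refine ⟨hyc, b.2 ?_⟩
      rw [ins_succAbove, ins_self, Fin.lt_def, sa_ge (hc.ge hyc)]
      have := hc.ge hyc
      omega
  · intro hi hj
    rcases e1 i hi with hi' | hi' <;> rcases e1 j hj with hj' | hj'
    · exact g4 hi' hj'
    · exact (g3 _ hi' hj').2
    · exact (g2 _ hi' hj').2
    · exact absurd (g1 _ _ hi' hj').1 (lt_irrefl _)

theorem con_ins_of_con {p : Equiv.Perm (Fin m)} {ρ : Equiv.Perm (Fin n)} {c : ℕ}
    {d : Fin (n + 1)} (hcd : c ≤ d) (h : Con p ρ c) : Con p (ins ρ d) c := by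
  obtain ⟨g, hg⟩ := h
  refine ⟨fun i => (g i).map d.succAbove, ?_⟩
  have e1 : ∀ i, ((g i).map d.succAbove = none) → g i = none := by
    intro i h; simpa using h
  have e2 : ∀ i x, ((g i).map d.succAbove = some x) → ∃ y, g i = some y ∧ x = d.succAbove y := by
    intro i x h
    rw [Option.map_eq_some_iff] at h
    obtain ⟨a, b, c⟩ := h
    exact ⟨a, b, c.symm⟩
  intro i j hij
  obtain ⟨g1, g2, g3, g4⟩ := hg i j hij
  refine ⟨?_, ?_, ?_, ?_⟩
  · intro x y hx hy
    obtain ⟨x', hx', rfl⟩ := e2 i x hx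
    obtain ⟨y', hy', rfl⟩ := e2 j y hy
    obtain ⟨a, b⟩ := g1 _ _ hx' hy'
    rw [ins_succAbove, ins_succAbove, Fin.succAbove_lt_succAbove_iff,
      Fin.succAbove_lt_succAbove_iff]
    exact ⟨a, b⟩
  · intro x hx hj
    obtain ⟨x', hx', rfl⟩ := e2 i x hx
    obtain ⟨a, b⟩ := g2 _ hx' (e1 j hj)
    exact ⟨by rw [sa_lt (lt_of_lt_of_le a hcd)]; exact a, b⟩
  · intro y hi hy
    obtain ⟨y', hy', rfl⟩ := e2 j y hy
    obtain ⟨a, b⟩ := g3 _ (e1 i hi) hy'
    refine ⟨?_, b⟩
    by_cases hd : (y' : ℕ) < d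
    · rw [sa_lt hd]; exact a
    · rw [sa_ge (not_lt.1 hd)]; omega
  · intro hi hj
    exact g4 (e1 i hi) (e1 j hj)

/-- the key step for injectivity -/
theorem key_inj {p : Equiv.Perm (Fin m)} {σ ρ : Equiv.Perm (Fin n)} {c d : Fin (n + 1)}
    (hcd : c < d) (hσ : Cut σ c) (h : ins σ c = ins ρ d) :
    Cut ρ c ∧ (Con p ρ c → Con p σ c) := by
  constructor
  · intro i hi
    have h1 : (i : ℕ) < d := lt_trans hi hcd
    have h2 : d.succAbove i = c.succAbove i := by
      apply Fin.ext; rw [sa_lt h1, sa_lt hi]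
    have h3 : d.succAbove (ρ i) = c.succAbove (σ i) := by
      rw [← ins_succAbove ρ d i, ← ins_succAbove σ c i, h, h2]
    have h4 : ((c.succAbove (σ i) : Fin (n+1)) : ℕ) < c := by
      rw [sa_lt (hσ i hi)]; exact hσ i hi
    rw [← h3] at h4
    by_cases hd : (ρ i : ℕ) < d
    · rw [sa_lt hd] at h4; exact h4
    · rw [sa_ge (not_lt.1 hd)] at h4
      omega
  · intro hcon
    apply con_ins hσ
    rw [h]
    exact con_ins_of_con (le_of_lt hcd) hcon

end Pool.Agent.Lib.MP_f42431_co
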