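import Pool.Agent.Lib.MP_f42431_co.Count

set_option autoImplicit false

namespace Pool.Agent.Lib.MP_f42431_co

open Finset

variable {m n : ℕ}

/-- the first `a` entries of `p` embed in the positions below `c` of `σ` -/
def E (p : Equiv.Perm (Fin m)) (σ : Equiv.Perm (Fin n)) (a c : ℕ) : Prop :=
  ∃ f : Fin m → Option (Fin n),
    (∀ i : Fin m, (i : ℕ) < a → ∃ x, f i = some x ∧ (x : ℕ) < c) ∧
    (∀ i j : Fin m, i < j → (j : ℕ) < a → ∀ x y, f i = some x → f j = some y →
      x < y ∧ (p i < p j ↔ σ x < σ y))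

theorem E_zero (p : Equiv.Perm (Fin m)) (σ : Equiv.Perm (Fin n)) (c : ℕ) : E p σ 0 c :=
  ⟨fun _ => none, fun _ h => absurd h (Nat.not_lt_zero _), fun _ _ _ h => absurd h (Nat.not_lt_zero _)⟩

theorem E_mono {p : Equiv.Perm (Fin m)} {σ : Equiv.Perm (Fin n)} {a b c d : ℕ} (h : E p σ a c)
    (hb : b ≤ a) (hd : c ≤ d) : E p σ b d := by
  obtain ⟨f, h1, h2⟩ := h
  refine ⟨f, fun i hi => ?_, fun i j hij hj => h2 i j hij (by omega)⟩
  obtain ⟨x, hx, hc⟩ := h1 i (by omega)
  exact ⟨x, hx, by omega⟩

/-- an embedding glued from two maps -/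
theorem contains_of_glue {p : Equiv.Perm (Fin m)} {σ : Equiv.Perm (Fin n)} {c : ℕ}
    (hc : Cut σ c) {b : ℕ} (f g : Fin m → Option (Fin n))
    (hf1 : ∀ i : Fin m, (i : ℕ) < b → ∃ x, f i = some x ∧ (x : ℕ) < c)
    (hf2 : ∀ i j : Fin m, i < j → (j : ℕ) < b → ∀ x y, f i = some x → f j = some y →
      x < y ∧ (p i < p j ↔ σ x < σ y))
    (hg1 : ∀ i : Fin m, b ≤ (i : ℕ) → ∃ x, g i = some x ∧ c ≤ (x : ℕ))
    (hg2 : ∀ i j : Fin m, i < j → b ≤ (i : ℕ) → ∀ x y, g i = some x → g j = some y →
      x < y ∧ (p i < p j ↔ σ x < σ y))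
    (hp : ∀ i j : Fin m, (i : ℕ) < b → b ≤ (j : ℕ) → p i < p j) : Contains p σ := by
  have hex : ∀ i : Fin m, ∃ x : Fin n, ((i : ℕ) < b → f i = some x ∧ (x : ℕ) < c) ∧
      (b ≤ (i : ℕ) → g i = some x ∧ c ≤ (x : ℕ)) := by
    intro i
    by_cases hi : (i : ℕ) < b
    · obtain ⟨x, hx⟩ := hf1 i hi
      exact ⟨x, fun _ => hx, fun h => absurd hi (by omega)⟩
    · obtain ⟨x, hx⟩ := hg1 i (by omega)
      exact ⟨x, fun h => absurd h hi, fun _ => hx⟩
  choose e he1 he2 using hex
  have key : ∀ i j : Fin m, i < j → e i < e j ∧ (p i < p j ↔ σ (e i) < σ (e j)) := by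
    intro i j hij
    by_cases hj : (j : ℕ) < b
    · have hi : (i : ℕ) < b := lt_trans hij hj
      exact hf2 i j hij hj _ _ (he1 i hi).1 (he1 j hj).1
    · by_cases hi : (i : ℕ) < b
      · have h1 := (he1 i hi).2
        have h2 := (he2 j (by omega)).2
        have h3 := hc (e i) h1
        have h4 := hc.ge h2
        refine ⟨by rw [Fin.lt_def]; omega, ?_⟩
        refine iff_of_true (hp i j hi (by omega)) (by rw [Fin.lt_def]; omega)
      · exact hg2 i j hij (by omega) _ _ (he2 i (by omega)).1 (he2 j (by omega)).1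
  refine ⟨OrderEmbedding.ofStrictMono e (fun i j hij => (key i j hij).1), ?_⟩
  intro i j
  change p i < p j ↔ σ (e i) < σ (e j)
  rcases lt_trichotomy i j with h | h | h
  · exact (key i j h).2
  · subst h; simp
  · have h1 := (key j i h).2
    have h2 := (key j i h).1
    constructor
    · intro h3
      rcases lt_trichotomy (σ (e i)) (σ (e j)) with h4 | h4 | h4
      · exact h4
      · have := σ.injective h4
        rw [this] at h2; exact absurd h2 (lt_irrefl _)
      · exact absurd (h1.2 h4) (not_lt.2 h3.le)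
    · intro h3
      rcases lt_trichotomy (p i) (p j) with h4 | h4 | h4
      · exact h4
      · have := p.injective h4
        rw [this] at h; exact absurd h (lt_irrefl _)
      · exact absurd (h1.1 h4) (not_lt.2 h3.le)

open Classical in
/-- the greatest `a ≤ m` such that the first `a` entries of `p` embed below `c` -/
noncomputable def A (p : Equiv.Perm (Fin m)) (σ : Equiv.Perm (Fin n)) (c : ℕ) : ℕ :=
  Nat.findGreatest (fun a => E p σ a c) m

theorem A_spec (p : Equiv.Perm (Fin m)) (σ : Equiv.Perm (Fin n)) (c : ℕ) :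
    E p σ (A p σ c) c := by
  classical
  unfold A
  exact Nat.findGreatest_spec (P := fun a => E p σ a c) (Nat.zero_le m) (E_zero p σ c)

theorem A_le (p : Equiv.Perm (Fin m)) (σ : Equiv.Perm (Fin n)) (c : ℕ) : A p σ c ≤ m := by
  classical
  exact Nat.findGreatest_le m

theorem le_A {p : Equiv.Perm (Fin m)} {σ : Equiv.Perm (Fin n)} {a c : ℕ} (ha : a ≤ m)
    (h : E p σ a c) : a ≤ A p σ c := by
  classical
  exact Nat.le_findGreatest ha h

theorem A_lt {p : Equiv.Perm (Fin m)} {σ : Equiv.Perm (Fin n)} {c : ℕ} (hav : ¬ Contains p σ)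
    : A p σ c < m := by
  by_contra h
  push Not at h
  have h1 : A p σ c = m := le_antisymm (A_le p σ c) h
  obtain ⟨f, hf1, hf2⟩ := A_spec p σ c
  rw [h1] at hf1 hf2
  apply hav
  refine contains_of_glue (cut_n σ) (b := m) f (fun _ => none) ?_ hf2 ?_ ?_ ?_
  · intro i hi
    obtain ⟨x, hx, _⟩ := hf1 i hi
    exact ⟨x, hx, x.2⟩
  · intro i hi; have := i.2; omega
  · intro i j _ hi; have := i.2; omega
  · intro i j _ hj; have := j.2; omega

/-- if the cut `c` is unsafe, the entry `A(c)` of `p` is trivial -/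
theorem A_trivial {p : Equiv.Perm (Fin m)} {σ : Equiv.Perm (Fin n)} {c : ℕ}
    (hav : ¬ Contains p σ) (hc : Cut σ c) (hcon : Con p σ c) :
    ∀ j : Fin m, (⟨A p σ c, A_lt hav⟩ : Fin m) < j ↔ p ⟨A p σ c, A_lt hav⟩ < p j := by
  classical
  obtain ⟨g, hg⟩ := hcon
  set a : Fin m := ⟨A p σ c, A_lt hav⟩ with ha
  have hav' : (a : ℕ) = A p σ c := rfl
  have hnone : g a = none := by
    rcases hga : g a with _ | y
    · rfl
    exfalso
    by_cases hy : (y : ℕ) < c
    · -- all entries before `a` are on the left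
      have hE : E p σ (A p σ c + 1) c := by
        refine ⟨g, ?_, ?_⟩
        · intro i hi
          rcases (show i < a ∨ i = a by
            rcases lt_trichotomy i a with h | h | h
            · exact Or.inl h
            · exact Or.inr h
            · rw [Fin.lt_def] at h; omega) with h | h
          · rcases hgi : g i with _ | x
            · have := (hg i a h).2.2.1 y hgi hga
              omega
            · have := ((hg i a h).1 x y hgi hga).1
              rw [Fin.lt_def] at this
              exact ⟨x, rfl, by omega⟩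
          · rw [h]; exact ⟨y, hga, hy⟩
        · intro i j hij _ x y hx hy
          exact (hg i j hij).1 x y hx hy
      have h2 : A p σ c + 1 ≤ m := by have := a.2; omega
      have := le_A h2 hE
      omega
    · push Not at hy
      -- least entry on the right
      have hex : ∃ b : ℕ, ∃ h : b < m, ∃ z, g ⟨b, h⟩ = some z ∧ c ≤ (z : ℕ) :=
        ⟨a, a.2, y, hga, hy⟩
      obtain ⟨hbm, z, hz, hzc⟩ := Nat.find_spec hex
      have hmin := fun b' (h : b' < Nat.find hex) => Nat.find_min hex h
      have hba : Nat.find hex ≤ a := Nat.find_le ⟨a.2, y, hga, hy⟩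
      set b := Nat.find hex with hb
      obtain ⟨f, hf1, hf2⟩ := E_mono (A_spec p σ c) (show b ≤ A p σ c from hba) (le_refl c)
      apply hav
      have hright : ∀ j : Fin m, b ≤ (j : ℕ) → ∃ x, g j = some x ∧ c ≤ (x : ℕ) := by
        intro j hj
        rcases Nat.lt_or_ge b j with h | h
        · have hlt : (⟨b, hbm⟩ : Fin m) < j := by rw [Fin.lt_def]; exact h
          rcases hgj : g j with _ | x
          · have := ((hg _ j hlt).2.1 z hz hgj).1
            omega
          · have := ((hg _ j hlt).1 z x hz hgj).1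
            rw [Fin.lt_def] at this
            exact ⟨x, rfl, by omega⟩
        · have : j = ⟨b, hbm⟩ := Fin.ext (by simp; omega)
          rw [this]; exact ⟨z, hz, hzc⟩
      refine contains_of_glue hc (b := b) f g hf1 hf2 hright ?_ ?_
      · intro i j hij _ x y hx hy
        exact (hg i j hij).1 x y hx hy
      · intro i j hi hj
        obtain ⟨y', hy', hyc'⟩ := hright j hj
        have hij : i < j := by rw [Fin.lt_def]; omega
        rcases hgi : g i with _ | x
        · exact ((hg i j hij).2.2.1 y' hgi hy').2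
        · have hxc : (x : ℕ) < c := by
            by_contra hcc
            push Not at hcc
            exact hmin i hi ⟨i.2, x, hgi, hcc⟩
          have h3 := hc x hxc
          have h4 := hc.ge hyc'
          refine ((hg i j hij).1 x y' hgi hy').2.2 (by rw [Fin.lt_def]; omega)
  intro j
  have h1 : ∀ j : Fin m, a < j → p a < p j := by
    intro j hj
    rcases hgj : g j with _ | y
    · exact (hg a j hj).2.2.2 hnone hgj
    · exact ((hg a j hj).2.2.1 y hnone hgj).2
  have h2 : ∀ j : Fin m, j < a → p j < p a := by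
    intro j hj
    rcases hgj : g j with _ | y
    · exact (hg j a hj).2.2.2 hgj hnone
    · exact ((hg j a hj).2.1 y hgj hnone).2
  constructor
  · exact h1 j
  · intro h
    rcases lt_trichotomy a j with h3 | h3 | h3
    · exact h3
    · rw [h3] at h; exact absurd h (lt_irrefl _)
    · exact absurd (h2 j h3) (not_lt.2 h.le)

/-- `A` is strictly increasing over unsafe cuts -/
theorem A_strict {p : Equiv.Perm (Fin m)} {σ : Equiv.Perm (Fin n)} {c d : ℕ}
    (hav : ¬ Contains p σ) (hc : Cut σ c) (hcon : Con p σ c) (hcd : c < d) (hdn : d ≤ n) :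
    A p σ c < A p σ d := by
  classical
  have ht := A_trivial hav hc hcon
  obtain ⟨f, hf1, hf2⟩ := A_spec p σ c
  have hlt := A_lt (c := c) hav
  set a : Fin m := ⟨A p σ c, hlt⟩ with ha
  have hav' : (a : ℕ) = A p σ c := rfl
  have hcn : c < n := by omega
  have hE : E p σ (A p σ c + 1) d := by
    refine ⟨fun i => if (i : ℕ) < A p σ c then f i else some ⟨c, hcn⟩, ?_, ?_⟩
    · intro i hi
      by_cases h : (i : ℕ) < A p σ c
      · obtain ⟨x, hx, hxc⟩ := hf1 i h
        refine ⟨x, ?_, by omega⟩
        simp [h, hx]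
      · exact ⟨⟨c, hcn⟩, by simp [h], by simpa using hcd⟩
    · intro i j hij hj x y hx hy
      by_cases h : (j : ℕ) < A p σ c
      · have hi : (i : ℕ) < A p σ c := lt_trans hij h
        simp only [hi, h, if_true] at hx hy
        exact hf2 i j hij h x y hx hy
      · have hja : j = a := Fin.ext (by omega)
        have hi : (i : ℕ) < A p σ c := by rw [Fin.lt_def] at hij; omega
        simp only [hi, h, if_true, if_false, Option.some.injEq] at hx hy
        obtain ⟨x', hx', hxc⟩ := hf1 i hi
        rw [hx] at hx'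
        simp only [Option.some.injEq] at hx'
        subst hx'
        have h3 := hc x hxc
        have h4 : c ≤ (σ y : ℕ) := hc.ge (by rw [← hy])
        refine ⟨by rw [← hy, Fin.lt_def]; exact hxc, ?_⟩
        refine iff_of_true ?_ (by rw [Fin.lt_def]; omega)
        rw [hja]
        have h5 := ht i
        rw [hja] at hij
        rcases lt_trichotomy (p i) (p a) with h6 | h6 | h6
        · exact h6
        · exact absurd (p.injective h6) hij.ne
        · exact absurd (h5.2 h6) (not_lt.2 hij.le)
  have := le_A (by omega) hE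
  omega

/-- if all cuts are unsafe then there are few components -/
theorem comps_lt_of_unsafe {p : Equiv.Perm (Fin m)} {σ : Equiv.Perm (Fin n)}
    (hav : ¬ Contains p σ) (h : ∀ c, c ≤ n → Cut σ c → Con p σ c) : comps σ + 1 ≤ tau p := by
  classical
  obtain ⟨s, hs, hcard⟩ := card_cuts σ
  rw [← hcard]
  unfold tau
  refine Finset.card_le_card_of_injOn (fun c => (⟨A p σ c, A_lt hav⟩ : Fin m)) ?_ ?_
  · intro c hc
    have h1 := (hs c).1 hc
    simp only [coe_filter, mem_univ, true_and, Set.mem_ofPred_eq]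
    exact A_trivial hav h1.2 (h c h1.1 h1.2)
  · intro c hc d hd hcd
    have h1 := (hs c).1 hc
    have h2 := (hs d).1 hd
    simp only [Fin.mk.injEq] at hcd
    rcases lt_trichotomy c d with h3 | h3 | h3
    · have := A_strict hav h1.2 (h c h1.1 h1.2) h3 h2.1
      omega
    · exact h3
    · have := A_strict hav h2.2 (h d h2.1 h2.2) h3 h1.1
      omega

/-- with at least `τ(p)` components there is a safe cut -/
theorem exists_safe {p : Equiv.Perm (Fin m)} {σ : Equiv.Perm (Fin n)}
    (hav : ¬ Contains p σ) (h : tau p ≤ comps σ) : ∃ c, c ≤ n ∧ Cut σ c ∧ ¬ Con p σ c := by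
  by_contra hcon
  push Not at hcon
  have := comps_lt_of_unsafe hav hcon
  omega

end Pool.Agent.Lib.MP_f42431_co
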